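import Mathlib
import Pool.Agent.W2helper24.TQ.Stm

/-!
# Project TQ, piece B2: the number of points of `y² = x³ - 1`
-/

set_option autoImplicit false

open Complex

namespace Pool.Agent.W2helper10.TQ

open Pool.Agent.Y696 Pool.Agent.W192.HK Pool.Agent.W2helper24.TQ

lemma lam_sq : lam * lam = -3 := by
  unfold lam
  linear_combination 4 * omr_sq

lemma om_lam : omr ^ 2 * lam = 1 - omr := by
  unfold lam
  linear_combination (2 * omr - 1) * omr_sq

lemma three_mem : (3 : eis) ∈ (sp lam : Ideal eis) := by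
  rw [Ideal.mem_span_singleton']
  exact ⟨-lam, by linear_combination -lam_sq⟩

lemma int_four (m : ℤ) (h : (m : eis) ∈ (sp 4 : Ideal eis)) : (4 : ℤ) ∣ m := by
  rw [Ideal.mem_span_singleton'] at h
  obtain ⟨t, ht⟩ := h
  obtain ⟨x, y, hxy⟩ := eis_rep t
  rw [hxy] at ht
  have h1 := congrArg (fun t : eis => (t : ℂ)) ht
  push_cast [omr_coe] at h1
  have e4 : ((4 : eis) : ℂ) = ((4 : ℝ) : ℂ) := by norm_cast
  rw [e4] at h1
  have h2 := congrArg Complex.im h1
  rw [Complex.im_mul_ofReal] at h2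
  simp at h2
  have hy : (y : ℝ) = 0 := by
    rcases h2 with h2 | h2
    · exact_mod_cast h2
    · exact absurd h2 om_im.ne'
  have hy' : y = 0 := by exact_mod_cast hy
  rw [hy'] at h1
  have h3 : ((x * 4 : ℤ) : ℂ) = m := by
    push_cast
    rw [← h1]
    push_cast
    ring
  have h4 : x * 4 = m := by exact_mod_cast h3
  exact ⟨x, by rw [← h4]; ring⟩

/-- a unit that is `1` modulo `2` and `-1` modulo `√-3` is `-1` -/
lemma unit_two_lam {v : eis} (hv : IsUnit v) (h2 : v + 1 ∈ (sp 2 : Ideal eis)) (h3 : v + 1 ∈ (sp lam : Ideal eis)) :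
    v = -1 := by
  rw [Ideal.mem_span_singleton'] at h2 h3
  obtain ⟨a, ha⟩ := h2
  obtain ⟨b, hb⟩ := h3
  set t : eis := lam * a + 2 * b with ht
  have h4 : v + 1 = 2 * lam * t := by
    have h5 : v + 1 = (lam * lam) * (v + 1) + 4 * (v + 1) := by rw [lam_sq]; ring
    rw [h5, ht]
    nth_rewrite 1 [← ha]
    rw [← hb]
    ring
  by_contra hne
  have hl : Complex.normSq (lam : ℂ) = 3 := by
    have h5 : Complex.normSq ((lam * lam : eis) : ℂ) = 9 := by
      rw [lam_sq]
      push_cast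
      rw [Complex.normSq_neg]
      exact normSq_three
    push_cast at h5
    rw [Complex.normSq_mul] at h5
    have h6 := Complex.normSq_nonneg (lam : ℂ)
    nlinarith
  have h1 : Complex.normSq ((v + 1 : eis) : ℂ) = 12 * Complex.normSq (t : ℂ) := by
    rw [h4]
    push_cast
    rw [Complex.normSq_mul, Complex.normSq_mul, hl]
    have : Complex.normSq ((2 : eis) : ℂ) = 4 := by
      have e : ((2 : eis) : ℂ) = (2 : ℂ) := rfl
      rw [e]
      norm_num [Complex.normSq_apply]
    rw [this]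
    ring
  have h2 : Complex.normSq (v : ℂ) = 1 := (isUnit_iff' v).1 hv
  have h4' : Complex.normSq ((v + 1 : eis) : ℂ) ≤ 4 := by
    push_cast
    have h5 : ‖(v : ℂ) + 1‖ ≤ 2 := by
      refine (norm_add_le _ _).trans ?_
      rw [Complex.normSq_eq_norm_sq] at h2
      have h7 : ‖(v : ℂ)‖ = 1 := by
        have := norm_nonneg (v : ℂ)
        nlinarith
      rw [h7]
      norm_num
    rw [Complex.normSq_eq_norm_sq]
    have := norm_nonneg ((v : ℂ) + 1)
    nlinarith
  obtain ⟨n, hn⟩ := norm_int t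
  rw [hn] at h1
  have h5 : (12 * n : ℝ) ≤ 4 := by linarith
  have h6 : n = 0 := by
    have : 12 * n ≤ 4 := by exact_mod_cast h5
    omega
  rw [h6] at hn
  have h7 : t = 0 := by
    apply coe_inj'
    simpa using hn
  rw [h7, mul_zero] at h4
  exact hne (eq_neg_of_add_eq_zero_left h4)

section field

variable {k : Type} [Field k] [Fintype k] [DecidableEq k]

lemma sq_sum (h2 : ringChar k ≠ 2) (g : k → eis) :
    ∑ y : k, g (y ^ 2) = ∑ u : k, (1 + ((quadraticChar k u : ℤ) : eis)) * g u := by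
  rw [← Finset.sum_fiberwise (Finset.univ) (fun y : k => y ^ 2) (fun y => g (y ^ 2))]
  refine Finset.sum_congr rfl fun u _ => ?_
  have h1 : ∑ y ∈ Finset.univ.filter (fun y : k => y ^ 2 = u), g (y ^ 2) =
      ∑ y ∈ Finset.univ.filter (fun y : k => y ^ 2 = u), g u :=
    Finset.sum_congr rfl fun y hy => by rw [(Finset.mem_filter.1 hy).2]
  rw [h1, Finset.sum_const, nsmul_eq_mul]
  congr 1
  have h3 := quadraticChar_card_sqrts h2 u
  have h4 : {x : k | x ^ 2 = u}.toFinset = Finset.univ.filter (fun y : k => y ^ 2 = u) := by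
    ext x; simp
  rw [h4] at h3
  have h5 : (((Finset.univ.filter (fun y : k => y ^ 2 = u)).card : ℤ) : eis) =
      ((quadraticChar k u + 1 : ℤ) : eis) := by rw [h3]
  push_cast at h5
  rw [h5]; ring

omit [DecidableEq k] in
lemma sum_chi {χ : MulChar k eis} (h1 : χ ≠ 1) : ∑ u : k, χ (1 + u) = 0 := by
  rw [← MulChar.sum_eq_zero_of_ne_one h1]
  exact Equiv.sum_comp (Equiv.addLeft (1 : k)) (fun u => χ u)

/-- the sum -/
lemma S_eq (h2 : ringChar k ≠ 2) {χ : MulChar k eis} (h1 : χ ≠ 1) :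
    ∑ y : k, χ (1 + y ^ 2) = ((quadraticChar k (-1) : ℤ) : eis) * (χ 4 * jacobiSum χ χ) := by
  have h2' : (2 : k) ≠ 0 := Ring.two_ne_zero h2
  set φ := quadraticChar k with hφ
  have e1 : ∑ y : k, χ (1 + y ^ 2) = ∑ u : k, ((φ u : ℤ) : eis) * χ (1 + u) := by
    rw [sq_sum h2 (fun u => χ (1 + u))]
    simp only [add_mul, one_mul]
    rw [Finset.sum_add_distrib, sum_chi h1, zero_add]
  have e2 : ∑ y : k, χ (1 - y ^ 2) = ((φ (-1) : ℤ) : eis) * ∑ u : k, ((φ u : ℤ) : eis) * χ (1 + u) := by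
    rw [sq_sum h2 (fun u => χ (1 - u))]
    rw [← Equiv.sum_comp (Equiv.neg k)]
    simp only [Equiv.neg_apply, sub_neg_eq_add, add_mul, one_mul]
    rw [Finset.sum_add_distrib, sum_chi h1, zero_add, Finset.mul_sum]
    refine Finset.sum_congr rfl fun u _ => ?_
    rw [← mul_assoc]
    congr 1
    have : -u = -1 * u := by ring
    rw [this, map_mul]
    push_cast
    ring
  have e3 : ∑ y : k, χ (1 - y ^ 2) = χ 4 * jacobiSum χ χ := by
    unfold jacobiSum
    rw [Finset.mul_sum]
    have hb : Function.Bijective (fun s : k => 1 - 2 * s) := by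
      constructor
      · intro a b hab
        have : 2 * a = 2 * b := by
          simp only at hab
          linear_combination -hab
        exact mul_left_cancel₀ h2' this
      · intro y
        refine ⟨(1 - y) / 2, ?_⟩
        simp only
        field_simp
        ring
    rw [← Function.Bijective.sum_comp hb (fun y => χ (1 - y ^ 2))]
    refine Finset.sum_congr rfl fun s _ => ?_
    rw [← map_mul, ← map_mul]
    congr 1
    ring
  have e4 : φ (-1) * φ (-1) = 1 := by
    rw [← map_mul]; simp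
  have e4' : ((φ (-1) : ℤ) : eis) * ((φ (-1) : ℤ) : eis) = 1 := by
    rw [← Int.cast_mul, e4]; simp
  rw [← e3, e2, e1, ← mul_assoc, e4', one_mul]

/-- the sum modulo two -/
lemma S_two (h2 : ringChar k ≠ 2) (χ : MulChar k eis) :
    ∑ y : k, χ (1 + y ^ 2) - 1 ∈ (sp 2 : Ideal eis) := by
  rw [sq_sum h2 (fun u => χ (1 + u)), ← Finset.add_sum_erase _ _ (Finset.mem_univ (0 : k))]
  have e1 : (1 + ((quadraticChar k 0 : ℤ) : eis)) * χ (1 + 0) = 1 := by
    simp
  rw [e1, add_sub_cancel_left]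
  refine Ideal.sum_mem _ fun u hu => ?_
  have hu0 : u ≠ 0 := (Finset.mem_erase.1 hu).1
  apply Ideal.mul_mem_right
  rcases quadraticChar_dichotomy hu0 with h | h
  · rw [h]
    rw [Ideal.mem_span_singleton']
    exact ⟨1, by push_cast; norm_num⟩
  · rw [h]
    push_cast
    rw [add_neg_cancel]
    exact Ideal.zero_mem _

omit [Fintype k] [DecidableEq k] in
lemma chi_lam {χ : MulChar k eis} (h : χ ^ 3 = 1) {x : k} (hx : x ≠ 0) : χ x - 1 ∈ (sp lam : Ideal eis) := by
  by_cases h1 : χ x = 1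
  · rw [h1, sub_self]; exact Ideal.zero_mem _
  · have h2 := chi_eq h hx h1
    have h3 : (χ x - omr) * (χ x - omr ^ 2) = 0 := by
      linear_combination h2 + (-χ x + omr - 1) * omr_sq
    rcases mul_eq_zero.1 h3 with h4 | h4
    · rw [sub_eq_zero.1 h4, Ideal.mem_span_singleton']
      exact ⟨-omr ^ 2, by linear_combination -om_lam⟩
    · rw [sub_eq_zero.1 h4, Ideal.mem_span_singleton']
      refine ⟨-omr ^ 2 * (omr + 1), ?_⟩
      linear_combination -(omr + 1) * om_lam

/-- the sum modulo `√-3` -/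
lemma S_lam (h2 : ringChar k ≠ 2) (hd : 3 ∣ Fintype.card k - 1) {χ : MulChar k eis} (h : χ ^ 3 = 1) :
    ∑ y : k, χ (1 + y ^ 2) + ((quadraticChar k (-1) : ℤ) : eis) ∈ (sp lam : Ideal eis) := by
  have h1 : ∑ y : k, (χ (1 + y ^ 2) - 1 + if y ^ 2 = -1 then 1 else 0) ∈ (sp lam : Ideal eis) := by
    refine Ideal.sum_mem _ fun y _ => ?_
    by_cases hy : y ^ 2 = -1
    · rw [if_pos hy, hy]
      have : χ (1 + -1) = 0 := by rw [add_neg_cancel]; exact MulChar.map_zero χ
      rw [this]
      simp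
    · rw [if_neg hy, add_zero]
      apply chi_lam h
      intro h0
      apply hy
      linear_combination h0
  rw [Finset.sum_add_distrib, Finset.sum_sub_distrib] at h1
  have e1 : ∑ _y : k, (1 : eis) = (Fintype.card k : eis) := by simp
  have e2 : ∑ y : k, (if y ^ 2 = -1 then (1 : eis) else 0) = 1 + ((quadraticChar k (-1) : ℤ) : eis) := by
    have h3 := sq_sum h2 (fun u => if u = -1 then (1 : eis) else 0)
    rw [h3]
    simp
  rw [e1, e2] at h1
  obtain ⟨m, hm⟩ := hd
  have hq : 1 < Fintype.card k := Fintype.one_lt_card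
  have h4 : ((Fintype.card k : ℕ) : eis) = 3 * m + 1 := by
    have : Fintype.card k = 3 * m + 1 := by omega
    rw [this]; push_cast; ring
  rw [h4] at h1
  have h5 : (3 : eis) * m ∈ (sp lam : Ideal eis) := Ideal.mul_mem_right _ _ three_mem
  have h6 := Ideal.add_mem _ h1 h5
  convert h6 using 1
  ring

end field

lemma pow_mem_one (I : Ideal eis) (x y : eis) (h : x - y ∈ I) (f : ℕ) : x ^ f - y ^ f ∈ I := by
  obtain ⟨c, hc⟩ := sub_dvd_pow_sub_pow x y f
  rw [hc]
  exact Ideal.mul_mem_right _ _ h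

theorem piece : P_B2 := by
  classical
  intro k _ _ ρ π hπ hPrm h2 h3 hker f hq
  obtain ⟨ε, hε, hm2, hml, hm4⟩ := hPrm
  have hr2 : ringChar k ≠ 2 := by
    intro h
    apply h2
    have := ringChar.Nat.cast_ringChar (R := k)
    rw [h] at this
    exact_mod_cast this
  obtain ⟨χ, hχ3, hχ1, hρ⟩ := exists_chi ρ h3
  have hd := three_dvd ρ h3
  -- the primary generator
  have hcop : IsCoprime π 3 := by
    have hp3 : ¬ π ∣ 3 := by
      intro h
      apply h3
      have := (hker 3).2 h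
      rwa [map_ofNat] at this
    obtain ⟨a, b, hab⟩ : ∃ a b : eis, a * π + b * 3 = 1 := by
      have h4 : IsCoprime (sp π : Ideal eis) (sp 3) := by
        rw [Ideal.isCoprime_span_singleton_iff]
        exact (Irreducible.coprime_iff_not_dvd hπ.irreducible).2 hp3
      rw [Ideal.isCoprime_span_singleton_iff] at h4
      exact h4
    exact ⟨a, b, hab⟩
  obtain ⟨π', hπ', hπ'1⟩ := exists_prim (I := sp π) ((Ideal.isCoprime_span_singleton_iff _ _).2 hcop)
  obtain ⟨w, hw⟩ := Ideal.span_singleton_eq_span_singleton.1 hπ'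
  have hwn := (isUnit_iff' (w : eis)).1 w.isUnit
  have hker' : ∀ x, ρ x = 0 ↔ π' ∣ x := by
    intro x
    rw [hker, ← hw]
    exact (w.mul_right_dvd).symm
  have hπ'p : Prime π' := by
    rw [← hw]
    exact (Associated.prime_iff ⟨w, rfl⟩).1 hπ
  have hq' : ((Fintype.card k : ℕ) : eis) = (π' * cj π') ^ f := by
    rw [hq]
    congr 1
    apply coe_inj'
    rw [cj_mul_coe, cj_mul_coe, ← hw]
    push_cast
    rw [Complex.normSq_mul, hwn, mul_one]
  obtain ⟨hJ1, hJ2⟩ := jac_eq ρ h3 hχ3 hχ1 hρ hπ'p hπ'1 hker' hq'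
  set S := ∑ y : k, χ (1 + y ^ 2) with hS
  -- the sign
  have hsgn : ((quadraticChar k (-1) : ℤ) : eis) = (ε : eis) ^ f := by
    have h5 : ((Fintype.card k : ℤ) : eis) - ((ε ^ f : ℤ) : eis) ∈ (sp 4 : Ideal eis) := by
      have := pow_mem_one _ _ _ hm4 f
      push_cast
      rw [hq]
      exact this
    rw [← Int.cast_sub] at h5
    have h6 := int_four _ h5
    have h7 : ((Fintype.card k : ℕ) : ZMod 4) = ((ε ^ f : ℤ) : ZMod 4) := by
      have := (ZMod.intCast_eq_intCast_iff_dvd_sub (ε ^ f) (Fintype.card k : ℤ) 4).2 (by exact_mod_cast h6)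
      rw [this]; simp
    rw [quadraticChar_neg_one hr2, h7]
    have h8 : ∀ z : ℤ, (z = 1 ∨ z = -1) → ZMod.χ₄ ((z : ℤ) : ZMod 4) = z := by
      rintro z (rfl | rfl)
      · simp
      · push_cast
        decide
    have h9 : ε ^ f = 1 ∨ ε ^ f = -1 := by
      rcases hε with rfl | rfl
      · left; simp
      · exact neg_one_pow_eq_or ℤ f
    rw [h8 _ h9]
    push_cast
    rfl
  -- `S = v π ^ f`
  obtain ⟨v, hv, hSv⟩ : ∃ v : eis, IsUnit v ∧ S = v * π ^ f := by
    refine ⟨-(((ε : eis) ^ f) * χ 4 * (w : eis) ^ f), ?_, ?_⟩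
    · have h4 : (4 : k) ≠ 0 := by
        have : (4 : k) = 2 * 2 := by norm_num
        rw [this]; exact mul_ne_zero h2 h2
      have h5 : IsUnit (χ 4) := IsUnit.of_mul_eq_one (χ 4 ^ 2) (by rw [← pow_succ']; exact chi_one hχ3 h4)
      have h6 : IsUnit (ε : eis) := by
        rcases hε with rfl | rfl
        · simp
        · push_cast; exact isUnit_one.neg
      exact (((h6.pow f).mul h5).mul (w.isUnit.pow f)).neg
    · rw [hS, S_eq hr2 hχ1, hJ1, hsgn, ← hw]
      ring
  have hv1 : v = -1 := by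
    have hπ2 : π ^ f - 1 ∈ (sp 2 : Ideal eis) := by
      have := pow_mem_one _ _ _ hm2 f
      rwa [one_pow] at this
    have hπl : π ^ f - (ε : eis) ^ f ∈ (sp lam : Ideal eis) := pow_mem_one _ _ _ hml f
    have he2 : (ε : eis) ^ f * (ε : eis) ^ f = 1 := by
      rw [← mul_pow]
      rcases hε with rfl | rfl <;> simp
    apply unit_two_lam hv
    · have a1 := S_two hr2 χ
      rw [← hS, hSv] at a1
      have a2 := Ideal.mul_mem_left _ v hπ2
      have a3 := Ideal.sub_mem _ a1 a2
      have a4 : (2 : eis) ∈ (sp 2 : Ideal eis) := Ideal.mem_span_singleton_self _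
      have a5 := Ideal.add_mem _ a3 a4
      convert a5 using 1
      ring
    · have a1 := S_lam hr2 hd hχ3
      rw [← hS, hSv, hsgn] at a1
      have a2 := Ideal.mul_mem_left _ v hπl
      have a3 := Ideal.sub_mem _ a1 a2
      have a4 := Ideal.mul_mem_left _ ((ε : eis) ^ f) a3
      convert a4 using 1
      linear_combination (-v - 1) * he2
  have hSf : S = -π ^ f := by rw [hSv, hv1]; ring
  -- the conjugate sum
  have hS' : ∑ y : k, χ (1 + y ^ 2) ^ 2 = -(cj π) ^ f := by
    have e1 : ∑ y : k, χ (1 + y ^ 2) ^ 2 = cjh S := by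
      rw [hS, map_sum]
      refine Finset.sum_congr rfl fun y _ => ?_
      have hinv : χ⁻¹ (1 + y ^ 2) = χ (1 + y ^ 2) ^ 2 := by
        have : χ⁻¹ = χ ^ 2 := by
          rw [inv_eq_iff_mul_eq_one, ← pow_succ', hχ3]
        rw [this, MulChar.pow_apply' _ two_ne_zero]
      rw [← hinv, ← cj_chi hχ3, MulChar.ringHomComp_apply]
    rw [e1, hSf, map_neg, map_pow]
    rfl
  -- the count
  have e1 : Nat.card {p : k × k // p.2 ^ 2 = p.1 ^ 3 - 1} =
      ∑ y : k, Nat.card {x : k // x ^ 3 = 1 + y ^ 2} := by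
    rw [← Nat.card_sigma]
    refine Nat.card_congr
      { toFun := fun p => ⟨p.1.2, p.1.1, by rw [p.2]; ring⟩
        invFun := fun p => ⟨(p.2.1, p.1), by
          have := p.2.2
          simp only
          rw [this]; ring⟩
        left_inv := fun p => rfl
        right_inv := fun p => rfl }
  rw [e1]
  push_cast
  simp only [card_cube ρ hχ3 h3 hρ]
  rw [Finset.sum_add_distrib, Finset.sum_add_distrib, hS', ← hS, hSf]
  simp
  ring

end Pool.Agent.W2helper10.TQ
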